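import Pool.Agent.helper10.QT.SpecY

set_option autoImplicit false

namespace Pool.Agent.AT

open Finset Pool.Agent.helper85.FC

open scoped Pointwise

theorem GQM_lift (c : ℤ) (X : Finset ℚˣ) (hX : ∀ x ∈ X, x ∈ Gc c) :
    ∃ X' : Finset (Gc c), #X' = #X ∧ ∀ x' ∈ X', ((x' : Gc c) : ℚˣ) ∈ X := by
  classical
  refine ⟨X.subtype (fun x => x ∈ Gc c), ?_, ?_⟩
  · rw [Finset.card_subtype, Finset.filter_true_of_mem hX]
  · intro x' hx'
    exact Finset.mem_subtype.1 hx'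

theorem GQM (h1 : GRA_stmt) (h2 : GRB_stmt) (h3 : GQ1_stmt) : GQM_stmt := by
  intro K c hc hX hx
  obtain ⟨hone, hinv, -⟩ := h3
  let S : Set (Gc c) := {x | GoodR c (((x : Gc c) : ℚˣ) : ℚ)}
  have hS1 : (1 : Gc c) ∈ S := by
    show GoodR c (((1 : Gc c) : ℚˣ) : ℚ)
    simpa using hone c
  have hSi : ∀ x ∈ S, x⁻¹ ∈ S := by
    intro x hx'
    show GoodR c (((x⁻¹ : Gc c) : ℚˣ) : ℚ)
    have h := hinv c _ (Units.ne_zero ((x : Gc c) : ℚˣ)) hx'
    rw [InvMemClass.coe_inv, Units.val_inv_eq_inv_val]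
    exact h
  have h4 : ∀ x : Fin 4 → Gc c, Function.Injective x → ∃ i j, i ≠ j ∧ x i / x j ∈ S ^ 2 := by
    intro x _
    obtain ⟨i, j, hij, y, hy, z, hz, gy, gz, e⟩ := hx (fun i => (x i : ℚˣ)) (fun i => (x i).2)
    refine ⟨i, j, hij, ?_⟩
    rw [sq, Set.mem_mul]
    exact ⟨⟨y, hy⟩, gy, ⟨z, hz⟩, gz, Subtype.ext e.symm⟩
  rcases h1 S 2 hS1 hSi h4 with ⟨H, hidx, hSH, hHS⟩ | hall
  · left
    refine ⟨H.map (Gc c).subtype, ?_, ?_, ?_, ?_, ?_⟩
    · rintro _ ⟨x, _, rfl⟩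
      exact x.2
    · have hi : (H.map (Gc c).subtype).relIndex (Gc c) = H.index := by
        rw [Subgroup.relIndex, Subgroup.subgroupOf,
          Subgroup.comap_map_eq_self_of_injective (Gc c).subtype_injective]
      rw [hi]
      exact hidx
    · intro x hx' hg
      exact ⟨⟨x, hx'⟩, hSH _ hg, rfl⟩
    · rintro _ ⟨x, hxH, rfl⟩
      have hx2 : x ∈ S ^ 2 := by
        rw [← hHS]
        exact hxH
      rw [sq, Set.mem_mul] at hx2
      obtain ⟨y, hy, z, hz, e⟩ := hx2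
      exact ⟨y, y.2, z, z.2, hy, hz, by rw [← e]; rfl⟩
    · intro X Y hXK hYK hXH hYH
      have hXG : ∀ x ∈ X, x ∈ Gc c := by
        intro x hx'
        obtain ⟨y, _, rfl⟩ := hXH x hx'
        exact y.2
      have hYG : ∀ x ∈ Y, x ∈ Gc c := by
        intro x hx'
        obtain ⟨y, _, rfl⟩ := hYH x hx'
        exact y.2
      obtain ⟨X', hX'c, hX'⟩ := GQM_lift c X hXG
      obtain ⟨Y', hY'c, hY'⟩ := GQM_lift c Y hYG
      have hne : H ≠ ⊤ := by
        rintro rfl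
        rw [Subgroup.index_top] at hidx
        omega
      have hcl : ∀ X : Fin 4 → Finset (Gc c), (∀ i, K ≤ #(X i)) →
          ∃ i j, i ≠ j ∧ ∃ x ∈ X i, ∃ y ∈ X j, x / y ∈ S := by
        intro Z hZ
        obtain ⟨i, j, hij, x, hxi, y, hyj, hg⟩ := hX (fun i => (Z i).map ⟨Subtype.val, Subtype.val_injective⟩)
          (fun i => by rw [Finset.card_map]; exact hZ i)
          (by
            intro i x hx'
            obtain ⟨y, _, rfl⟩ := Finset.mem_map.1 hx'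
            exact y.2)
        obtain ⟨x', hx'Z, rfl⟩ := Finset.mem_map.1 hxi
        obtain ⟨y', hy'Z, rfl⟩ := Finset.mem_map.1 hyj
        exact ⟨i, j, hij, x', hx'Z, y', hy'Z, hg⟩
      have hmem : ∀ x : Gc c, ((x : Gc c) : ℚˣ) ∈ H.map (Gc c).subtype → x ∈ H := by
        rintro x ⟨y, hyH, e⟩
        have : y = x := Subtype.ext e
        rw [← this]
        exact hyH
      obtain ⟨x, hxX, y, hyY, hg⟩ := h2 S K H hSi hSH hne hcl X' Y' (by rw [hX'c]; exact hXK)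
        (by rw [hY'c]; exact hYK) (fun x hx' => hmem x (hXH _ (hX' x hx')))
        (fun y hy' => hmem y (hYH _ (hY' y hy')))
      exact ⟨x, hX' x hxX, y, hY' y hyY, hg⟩
  · right
    intro x hx'
    obtain ⟨f, hf⟩ := Set.mem_pow.1 (hall ⟨x, hx'⟩)
    rw [List.prod_ofFn] at hf
    refine ⟨fun i => ((f i : Gc c) : ℚˣ), fun i => ⟨(f i : Gc c).2, (f i).2⟩, ?_⟩
    have h := congrArg (fun z : Gc c => (z : ℚˣ)) hf
    simp only [Subgroup.val_finsetProd] at h
    exact h.symm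

end Pool.Agent.AT
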